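import Pool.Agent.Lib.Helper67.BN.Sing

/-!
# Groups of bounded automorphisms act on the rays with uniform bottlenecks
-/

namespace Pool.Agent.Lib.Helper67.BN

open Pool.Agent.Lib.Helper67.BA
open Pool.Agent.Lib.Helper67.BA.TA

universe u

variable {X : Type} {E : Type u} [Group E]

variable (X) in
/-- the action on rays -/
noncomputable def rayHom : TA X →* Equiv.Perm (ℕ → X) where
  toFun g := ⟨ray g, ray g⁻¹, ray_inv_ray g, ray_ray_inv g⟩
  map_one' := Equiv.ext ray_one
  map_mul' g h := Equiv.ext (ray_mul g h)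

theorem rayHom_apply (g : TA X) (ξ : ℕ → X) : rayHom X g ξ = ray g ξ := rfl

/-- the singular rays of the generators -/
structure Data (j : E →* TA X) (S : Set E) (P : Set (ℕ → X)) (n₀ D : ℕ) : Prop where
  fin : P.Finite
  dep : ∀ s, (s ∈ S ∨ s⁻¹ ∈ S) → ∀ w : List X, n₀ ≤ w.length →
    sec (j s) w ∈ Dep X D ∨ ∃ ρ ∈ P, ray (j s) ρ ∈ P ∧ w = pref ρ w.length

theorem exists_data [Finite X] (j : E →* TA X) (hj : ∀ e, Bdd (j e)) {S : Set E}
    (hS : S.Finite) : ∃ P n₀ D, Data j S P n₀ D := by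
  have hT := finite_T hS
  choose N D h1 h2 using fun e => sing_of_bdd (hj e)
  obtain ⟨n₀, hn₀⟩ := (hT.image N).bddAbove
  obtain ⟨D₀, hD₀⟩ := (hT.image D).bddAbove
  refine ⟨⋃ s ∈ {s : E | s ∈ S ∨ s⁻¹ ∈ S}, {ρ | Sing (j s) ρ}, n₀, D₀,
    hT.biUnion fun s _ => h1 s, ?_⟩
  intro s hs w hw
  have h3 : N s ≤ n₀ := hn₀ ⟨s, hs, rfl⟩
  have h4 : D s ≤ D₀ := hD₀ ⟨s, hs, rfl⟩
  rcases h2 s w (by omega) with h | ⟨ρ, h5, h6⟩
  · exact Or.inl (Dep_mono h4 h)
  · right
    refine ⟨ρ, Set.mem_biUnion hs h5, ?_, h6⟩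
    have h7 : s⁻¹ ∈ {s : E | s ∈ S ∨ s⁻¹ ∈ S} := by
      show s⁻¹ ∈ S ∨ s⁻¹⁻¹ ∈ S
      rw [inv_inv]
      exact hs.symm
    refine Set.mem_biUnion h7 ?_
    show Sing (j s⁻¹) (ray (j s) ρ)
    rw [map_inv]
    exact h5.inv

/-- separation of the singular rays at a deep level -/
def Sep (j : E →* TA X) (S : Set E) (P : Set (ℕ → X)) (r n₁ : ℕ) : Prop :=
  ∀ n, n₁ ≤ n → ∀ g ∈ ball S r, ∀ ρ ∈ P, ∀ ρ' ∈ P, j g (pref ρ n) = pref ρ' n → ray (j g) ρ = ρ'

theorem exists_sep (j : E →* TA X) {S : Set E} (hS : S.Finite) {P : Set (ℕ → X)}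
    (hP : P.Finite) (r n₀ : ℕ) : ∃ n₁, n₀ ≤ n₁ ∧ Sep j S P r n₁ := by
  have h1 : ∀ p : E × (ℕ → X) × (ℕ → X), ∃ N, ray (j p.1) p.2.1 ≠ p.2.2 →
      pref (ray (j p.1) p.2.1) N ≠ pref p.2.2 N := by
    intro p
    by_contra hcon
    push Not at hcon
    obtain ⟨h2, -⟩ := hcon 0
    exact h2 (ray_ext fun n => (hcon n).2)
  choose N hN using h1
  have hfin := (ball_finite hS r).prod (hP.prod hP)
  obtain ⟨M, hM⟩ := (hfin.image N).bddAbove
  refine ⟨max n₀ M, le_max_left _ _, fun n hn g hg ρ hρ ρ' hρ' h => ?_⟩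
  by_contra hne
  apply hN (g, ρ, ρ') hne
  have h2 : N (g, ρ, ρ') ≤ M := hM ⟨_, ⟨hg, hρ, hρ'⟩, rfl⟩
  apply pref_eq_of_le (n := n) (by omega)
  rw [pref_ray]
  exact h

variable {j : E →* TA X} {S : Set E} {P : Set (ℕ → X)} {n₀ D r : ℕ}

/-- the orbits of singular rays have few tails -/
theorem Data.singular (hd : Data j S P n₀ D) {n : ℕ} (hn : n₀ ≤ n) (hs : Sep j S P r n) {k : ℕ}
    (hk : k ≤ r) {h : E} (hh : h ∈ ball S k) {ρ : ℕ → X} (hρ : ρ ∈ P) :
    ∃ ρ' ∈ P, shift (n + D) (ray (j h) ρ) = shift (n + D) ρ' := by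
  induction k generalizing h with
  | zero =>
    rw [ball_zero] at hh
    rw [Set.mem_singleton_iff.1 hh]
    exact ⟨ρ, hρ, by rw [map_one, ray_one]⟩
  | succ k ih =>
    rcases mem_ball_succ.1 hh with h1 | ⟨s, g, h1, h2, rfl⟩
    · exact ih (by omega) h1
    · rw [map_mul, ray_mul]
      rcases hd.dep s h1 (pref (ray (j g) ρ) n) (by rw [length_pref]; exact hn) with
        h3 | ⟨ρ', h3, h4, h5⟩
      · obtain ⟨ρ', h4, h5⟩ := ih (by omega) h2
        exact ⟨ρ', h4, by rw [shift_of_dep h3, h5]⟩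
      · rw [length_pref, pref_ray] at h5
        have h6 := hs n le_rfl g (ball_mono (by omega) h2) ρ hρ ρ' h3 h5
        rw [h6]
        exact ⟨_, h4, rfl⟩

/-- sections at words which have just left a singular ray -/
theorem Data.off (hd : Data j S P n₀ D) {n : ℕ} (hn : n₀ ≤ n) (hs : Sep j S P r n)
    {x ρ : ℕ → X} (hρ : ρ ∈ P) (h1 : pref x n = pref ρ n) (h2 : pref x (n + 1) ≠ pref ρ (n + 1))
    {k : ℕ} (hk : k ≤ r) {h : E} (hh : h ∈ ball S k) :
    sec (j h) (pref x (n + 1)) ∈ Dep X D := by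
  induction k generalizing h with
  | zero =>
    rw [ball_zero] at hh
    rw [Set.mem_singleton_iff.1 hh, map_one, sec_one]
    exact one_mem _
  | succ k ih =>
    rcases mem_ball_succ.1 hh with h3 | ⟨s, g, h3, h4, rfl⟩
    · exact ih (by omega) h3
    · rw [map_mul, sec_mul]
      refine mul_mem ?_ (ih (by omega) h4)
      rcases hd.dep s h3 (j g (pref x (n + 1))) (by rw [TA.length, length_pref]; omega) with
        h5 | ⟨ρ', h5, -, h6⟩
      · exact h5
      · exfalso
        rw [TA.length, length_pref, ← pref_ray] at h6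
        have h7 := pref_eq_of_le (Nat.le_succ n) h6
        rw [pref_ray, h1] at h7
        have h8 := hs n le_rfl g (ball_mono (by omega) h4) ρ hρ ρ' h5 h7
        rw [← h8, pref_ray, pref_ray] at h6
        exact h2 (TA.inj _ h6)

/-- sections at words whose ball avoids the singular rays -/
theorem Data.regular (hd : Data j S P n₀ D) {n : ℕ} (hn : n₀ ≤ n) {w : List X}
    (hw : w.length = n) (h1 : ∀ g ∈ ball S r, ∀ ρ ∈ P, j g w ≠ pref ρ n)
    {k : ℕ} (hk : k ≤ r) {h : E} (hh : h ∈ ball S k) : sec (j h) w ∈ Dep X D := by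
  induction k generalizing h with
  | zero =>
    rw [ball_zero] at hh
    rw [Set.mem_singleton_iff.1 hh, map_one, sec_one]
    exact one_mem _
  | succ k ih =>
    rcases mem_ball_succ.1 hh with h3 | ⟨s, g, h3, h4, rfl⟩
    · exact ih (by omega) h3
    · rw [map_mul, sec_mul]
      refine mul_mem ?_ (ih (by omega) h4)
      rcases hd.dep s h3 (j g w) (by rw [TA.length]; omega) with h5 | ⟨ρ', h5, -, h6⟩
      · exact h5
      · exfalso
        rw [TA.length, hw] at h6
        exact h1 g (ball_mono (by omega) h4) ρ' h5 h6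

/-- The tails of the points of a ball. -/
theorem Data.tails (hd : Data j S P n₀ D) {n : ℕ} (hn : n₀ ≤ n) (hs : Sep j S P (r + r) n)
    (x : ℕ → X) : ∃ Φ : (Option P × (Fin D → X) × (Fin (D + 1) → X)) → (ℕ → X),
      ∀ g ∈ ball S r, ∃ p, shift n (ray (j g) x) = Φ p := by
  classical
  by_cases hreg : ∀ g ∈ ball S r, ∀ ρ ∈ P, j g (pref x n) ≠ pref ρ n
  · refine ⟨fun p i => if h : i < D then p.2.1 ⟨i, h⟩ else x (n + i), fun g hg => ?_⟩
    refine ⟨(none, fun i => shift n (ray (j g) x) i, fun _ => x 0), ?_⟩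
    have h1 := hd.regular hn (length_pref x n) hreg le_rfl hg
    have h2 := shift_of_dep h1
    funext i
    simp only
    split_ifs with h
    · rfl
    · have h3 := congrFun h2 (i - D)
      have h4 : n + D + (i - D) = n + i := by omega
      simp only [shift, h4] at h3
      exact h3
  · push Not at hreg
    obtain ⟨g₀, hg₀, ρ, hρ, h0⟩ := hreg
    set x' := ray (j g₀) x with hx'
    have hpre : pref x' n = pref ρ n := by rw [hx', pref_ray, h0]
    have hbase : ∀ g ∈ ball S r, ∃ h ∈ ball S (r + r), ray (j g) x = ray (j h) x' := by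
      intro g hg
      refine ⟨g * g₀⁻¹, ball_mul hg (ball_inv hg₀), ?_⟩
      rw [hx', ← ray_mul, ← map_mul, inv_mul_cancel_right]
    by_cases hxr : x' = ρ
    · refine ⟨fun p i => if h : i < D then p.2.1 ⟨i, h⟩ else
        (match p.1 with
          | none => x 0
          | some ρ' => ρ'.1 (n + i)), fun g hg => ?_⟩
      obtain ⟨h, hh, hgh⟩ := hbase g hg
      obtain ⟨ρ', h1, h2⟩ := hd.singular hn hs le_rfl hh hρ
      refine ⟨(some ⟨ρ', h1⟩, fun i => shift n (ray (j g) x) i, fun _ => x 0), ?_⟩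
      funext i
      simp only
      split_ifs with hi
      · rfl
      · have h3 := congrFun h2 (i - D)
        have h4 : n + D + (i - D) = n + i := by omega
        simp only [shift, h4] at h3
        rw [hgh, hxr]
        exact h3
    · -- the place where `x'` leaves `ρ`
      have hex : ∃ l, pref x' (n + l + 1) ≠ pref ρ (n + l + 1) := by
        by_contra hcon
        push Not at hcon
        apply hxr
        apply ray_ext
        intro k
        exact pref_eq_of_le (by omega) (hcon k)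
      set l := Nat.find hex with hl
      have hl1 : pref x' (n + l + 1) ≠ pref ρ (n + l + 1) := Nat.find_spec hex
      have hl2 : pref x' (n + l) = pref ρ (n + l) := by
        rcases Nat.eq_zero_or_pos l with h | h
        · rw [h]
          exact hpre
        · have h1 := Nat.find_min hex (m := l - 1) (by omega)
          push Not at h1
          have h2 : n + (l - 1) + 1 = n + l := by omega
          rwa [h2] at h1
      refine ⟨fun p i => if h : i < D then p.2.1 ⟨i, h⟩ else
        if i < l then (match p.1 with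
          | none => x 0
          | some ρ' => ρ'.1 (n + i)) else
        if h : i - l < D + 1 then p.2.2 ⟨i - l, h⟩ else x' (n + i), fun g hg => ?_⟩
      obtain ⟨h, hh, hgh⟩ := hbase g hg
      obtain ⟨ρ', h1, h2⟩ := hd.singular hn hs le_rfl hh hρ
      refine ⟨(some ⟨ρ', h1⟩, fun i => shift n (ray (j g) x) i,
        fun t => shift n (ray (j g) x) (l + t)), ?_⟩
      have hoff := hd.off (n := n + l) (by omega) (fun m hm => hs m (by omega)) hρ hl2 hl1
        le_rfl hh
      have htail := shift_of_dep hoff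
      have hmid : pref (ray (j h) x') (n + l) = pref (ray (j h) ρ) (n + l) := by
        rw [pref_ray (j h) x', pref_ray (j h) ρ, hl2]
      funext i
      simp only
      split_ifs with hi1 hi2 hi3
      · rfl
      · have h3 := congrFun h2 (i - D)
        have h4 : n + D + (i - D) = n + i := by omega
        simp only [shift, h4] at h3
        rw [← h3, hgh]
        exact apply_eq_of_pref (by omega) hmid
      · congr 1
        omega
      · have h3 := congrFun htail (i - (l + 1 + D))
        have h4 : n + l + 1 + D + (i - (l + 1 + D)) = n + i := by omega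
        simp only [shift, h4] at h3
        rw [hgh]
        exact h3

/-- **Finitely generated groups of bounded automorphisms act on the rays with uniform
bottlenecks.** -/
theorem bottlenecks_automata [Finite X] (j : E →* TA X) (hj : ∀ e, Bdd (j e)) {S : Set E}
    (hSf : S.Finite) (hS : Subgroup.closure S = ⊤) :
    UniformBottlenecks ((rayHom X).comp j) := by
  classical
  have hT := finite_T hSf
  obtain ⟨P, n₀, D, hd⟩ := exists_data j hj hSf
  have hPfin := hd.fin.to_subtype
  choose C hC using fun e => (hj e).1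
  let N := Nat.card (Option P × (Fin D → X) × (Fin (D + 1) → X))
  obtain ⟨C₀, hC₀⟩ := (hT.image C).bddAbove
  apply bottlenecks_of hSf hS (({s : E | s ∈ S ∨ s⁻¹ ∈ S}.ncard * C₀) * N)
  intro r
  obtain ⟨n, hn, hs⟩ := exists_sep j hSf hd.fin (r + r) n₀
  refine ⟨{w : List X | w.length = n}.ncard * N, fun x => ?_⟩
  obtain ⟨Φ, hΦ⟩ := hd.tails hn hs x
  -- tails
  set A : Set (ℕ → X) := {τ | ∃ g ∈ ball S r, shift n (ray (j g) x) = τ} with hA
  have hAsub : A ⊆ Set.range Φ := by
    rintro τ ⟨g, hg, rfl⟩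
    obtain ⟨p, hp⟩ := hΦ g hg
    exact ⟨p, hp.symm⟩
  have hAfin : A.Finite := (Set.finite_range Φ).subset hAsub
  have hAcard : A.ncard ≤ N := by
    refine (Set.ncard_le_ncard hAsub (Set.finite_range Φ)).trans ?_
    rw [← Set.image_univ]
    refine (Set.ncard_image_le Set.finite_univ).trans ?_
    rw [Set.ncard_univ]
  set U : Set (ℕ → X) := {y | shift n y ∈ A} with hU
  have hglue : ∀ W : Set (List X), ∀ Y : Set (ℕ → X),
      (∀ y ∈ Y, pref y n ∈ W ∧ shift n y ∈ A) → Y ⊆ (fun p : List X × (ℕ → X) => app p.1 p.2) ''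
        (W ×ˢ A) := by
    intro W Y hY y hy
    exact ⟨(pref y n, shift n y), hY y hy, app_pref_shift y n⟩
  have hwords : {w : List X | w.length = n}.Finite := finite_words n
  have hUsub : U ⊆ (fun p : List X × (ℕ → X) => app p.1 p.2) ''
      ({w : List X | w.length = n} ×ˢ A) :=
    hglue _ _ fun y hy => ⟨length_pref y n, hy⟩
  refine ⟨U, ((hwords.prod hAfin).image _).subset hUsub, ?_, ?_, ?_⟩
  · refine (Set.ncard_le_ncard hUsub ((hwords.prod hAfin).image _)).trans ?_
    refine (Set.ncard_image_le (hwords.prod hAfin)).trans ?_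
    rw [Set.ncard_prod]
    exact Nat.mul_le_mul_left _ hAcard
  · rintro y ⟨g, hg, rfl⟩
    exact ⟨g, hg, rfl⟩
  · set W : Set (List X) := ⋃ s ∈ {s : E | s ∈ S ∨ s⁻¹ ∈ S},
      {v : List X | v.length = n ∧ sec (j s) v ≠ 1} with hW
    have hWfin : W.Finite := hT.biUnion fun s _ => hwords.subset fun v hv => hv.1
    have hWcard : W.ncard ≤ {s : E | s ∈ S ∨ s⁻¹ ∈ S}.ncard * C₀ := by
      have h1 := hT.toFinset.set_ncard_biUnion_le
        (fun s => {v : List X | v.length = n ∧ sec (j s) v ≠ 1})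
      have h2 : W = ⋃ s ∈ hT.toFinset, {v : List X | v.length = n ∧ sec (j s) v ≠ 1} := by
        rw [hW]
        ext v
        simp
      rw [h2]
      refine h1.trans ?_
      refine (Finset.sum_le_card_nsmul _ _ C₀ ?_).trans ?_
      · intro s hs
        rw [Set.Finite.mem_toFinset] at hs
        exact (hC s n).trans (hC₀ ⟨s, hs, rfl⟩)
      · rw [smul_eq_mul, Set.ncard_eq_toFinset_card _ hT]
    have hb : bdry ((rayHom X).comp j) S U ⊆ (fun p : List X × (ℕ → X) => app p.1 p.2) ''
        (W ×ˢ A) := by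
      apply hglue
      rintro y ⟨h1, s, h2, h3⟩
      refine ⟨Set.mem_biUnion h2 ⟨length_pref y n, fun h4 => h3 ?_⟩, h1⟩
      show shift n (ray (j s) y) ∈ A
      rw [shift_ray, h4, ray_one]
      exact h1
    refine (Set.ncard_le_ncard hb ((hWfin.prod hAfin).image _)).trans ?_
    refine (Set.ncard_image_le (hWfin.prod hAfin)).trans ?_
    rw [Set.ncard_prod]
    exact Nat.mul_le_mul hWcard hAcard

end Pool.Agent.Lib.Helper67.BN
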