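import Mathlib

/-!
# Bottlenecks in Schreier graphs: definitions, linear growth
-/

namespace Pool.Agent.Lib.Helper67.BN

universe u v

variable {E : Type u} [Group E] {V : Type v}

/-- The ball of radius `n`: the products of at most `n` elements of `S` and inverses of elements
of `S`. -/
def ball {G : Type u} [Group G] (S : Set G) (n : ℕ) : Set G :=
  {g | ∃ l : List G, l.length ≤ n ∧ (∀ x ∈ l, x ∈ S ∨ x⁻¹ ∈ S) ∧ l.prod = g}

/-- The ball of radius `r` around `x` in its Schreier graph with respect to `S`. -/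
def orbitBall (π : E →* Equiv.Perm V) (S : Set E) (x : V) (r : ℕ) : Set V :=
  {y | ∃ g ∈ ball S r, π g x = y}

/-- The boundary of a set of points: the points of the set with a neighbour outside. -/
def bdry (π : E →* Equiv.Perm V) (S : Set E) (F : Set V) : Set V :=
  {v | v ∈ F ∧ ∃ s, (s ∈ S ∨ s⁻¹ ∈ S) ∧ π s v ∉ F}

/-- Uniform bottlenecks. -/
def UniformBottlenecks (π : E →* Equiv.Perm V) : Prop :=
  ∃ S : Set E, S.Finite ∧ Subgroup.closure S = ⊤ ∧ ∃ K : ℕ, ∀ r : ℕ, ∃ R : ℕ, ∀ x : V,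
    ∃ F : Set V, orbitBall π S x r ⊆ F ∧ F ⊆ orbitBall π S x R ∧ (bdry π S F).ncard ≤ K

/-- Linear orbit growth. -/
def LinearOrbitGrowth (π : E →* Equiv.Perm V) : Prop :=
  ∃ S : Set E, S.Finite ∧ Subgroup.closure S = ⊤ ∧ ∃ C : ℕ, ∀ R₀ : ℕ, ∃ R : ℕ, R₀ ≤ R ∧
    ∀ x : V, (orbitBall π S x R).ncard ≤ C * R

theorem ball_mono {S : Set E} {m n : ℕ} (h : m ≤ n) : ball S m ⊆ ball S n := by
  rintro g ⟨l, h1, h2, h3⟩
  exact ⟨l, h1.trans h, h2, h3⟩

theorem one_mem_ball (S : Set E) (n : ℕ) : (1 : E) ∈ ball S n := ⟨[], by simp, by simp, rfl⟩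

theorem ball_zero (S : Set E) : ball S 0 = {1} := by
  ext g
  constructor
  · rintro ⟨l, h1, -, rfl⟩
    rw [List.length_eq_zero_iff.1 (Nat.le_zero.1 h1)]
    rfl
  · rintro rfl
    exact one_mem_ball S 0

theorem mem_ball_succ {S : Set E} {n : ℕ} {g : E} : g ∈ ball S (n + 1) ↔
    g ∈ ball S n ∨ ∃ s h, (s ∈ S ∨ s⁻¹ ∈ S) ∧ h ∈ ball S n ∧ g = s * h := by
  constructor
  · rintro ⟨l, h1, h2, h3⟩
    cases l with
    | nil => exact Or.inl ⟨[], by simp, by simp, h3⟩
    | cons s l =>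
      right
      refine ⟨s, l.prod, h2 s List.mem_cons_self, ⟨l, ?_, fun x hx =>
        h2 x (List.mem_cons_of_mem _ hx), rfl⟩, by rw [← h3, List.prod_cons]⟩
      rw [List.length_cons] at h1
      omega
  · rintro (h | ⟨s, h, h1, ⟨l, h2, h3, rfl⟩, rfl⟩)
    · exact ball_mono (Nat.le_succ n) h
    · refine ⟨s :: l, by rw [List.length_cons]; omega, ?_, by rw [List.prod_cons]⟩
      intro x hx
      rcases List.mem_cons.1 hx with rfl | hx
      · exact h1
      · exact h3 x hx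

theorem ball_mul {S : Set E} {m n : ℕ} {g h : E} (hg : g ∈ ball S m) (hh : h ∈ ball S n) :
    g * h ∈ ball S (m + n) := by
  obtain ⟨l, h1, h2, rfl⟩ := hg
  obtain ⟨k, h3, h4, rfl⟩ := hh
  refine ⟨l ++ k, by rw [List.length_append]; omega, ?_, by rw [List.prod_append]⟩
  intro x hx
  rcases List.mem_append.1 hx with hx | hx
  · exact h2 x hx
  · exact h4 x hx

theorem ball_inv {S : Set E} {n : ℕ} {g : E} (hg : g ∈ ball S n) : g⁻¹ ∈ ball S n := by
  obtain ⟨l, h1, h2, rfl⟩ := hg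
  refine ⟨(l.map fun x => x⁻¹).reverse, by simpa using h1, ?_, ?_⟩
  · intro x hx
    rw [List.mem_reverse, List.mem_map] at hx
    obtain ⟨y, hy, rfl⟩ := hx
    rw [inv_inv]
    exact (h2 y hy).symm
  · rw [List.prod_inv_reverse]

theorem finite_T {S : Set E} (hS : S.Finite) : {s : E | s ∈ S ∨ s⁻¹ ∈ S}.Finite := by
  have h1 : {s : E | s ∈ S ∨ s⁻¹ ∈ S} = S ∪ S⁻¹ := by
    ext s
    simp
  rw [h1]
  exact hS.union hS.inv

theorem ball_finite {S : Set E} (hS : S.Finite) (n : ℕ) : (ball S n).Finite := by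
  induction n with
  | zero =>
    rw [ball_zero]
    exact Set.finite_singleton _
  | succ n ih =>
    have h1 : ball S (n + 1) ⊆ ball S n ∪ Set.image2 (fun s h => s * h)
        {s : E | s ∈ S ∨ s⁻¹ ∈ S} (ball S n) := by
      intro g hg
      rcases mem_ball_succ.1 hg with h | ⟨s, h, h1, h2, rfl⟩
      · exact Or.inl h
      · exact Or.inr ⟨s, h1, h, h2, rfl⟩
    exact (ih.union ((finite_T hS).image2 _ ih)).subset h1

theorem orbitBall_mono {π : E →* Equiv.Perm V} {S : Set E} {x : V} {m n : ℕ} (h : m ≤ n) :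
    orbitBall π S x m ⊆ orbitBall π S x n := by
  rintro y ⟨g, hg, rfl⟩
  exact ⟨g, ball_mono h hg, rfl⟩

theorem mem_orbitBall_self (π : E →* Equiv.Perm V) (S : Set E) (x : V) (n : ℕ) :
    x ∈ orbitBall π S x n := ⟨1, one_mem_ball S n, by simp⟩

theorem orbitBall_finite {π : E →* Equiv.Perm V} {S : Set E} (hS : S.Finite) (x : V) (n : ℕ) :
    (orbitBall π S x n).Finite := by
  have h1 : orbitBall π S x n = (fun g => π g x) '' ball S n := by
    ext y
    constructor
    · rintro ⟨g, h1, h2⟩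
      exact ⟨g, h1, h2⟩
    · rintro ⟨g, h1, h2⟩
      exact ⟨g, h1, h2⟩
  rw [h1]
  exact (ball_finite hS n).image _

theorem mem_orbitBall_succ {π : E →* Equiv.Perm V} {S : Set E} {x y : V} {n : ℕ} :
    y ∈ orbitBall π S x (n + 1) ↔ y ∈ orbitBall π S x n ∨
      ∃ s, (s ∈ S ∨ s⁻¹ ∈ S) ∧ ∃ z ∈ orbitBall π S x n, π s z = y := by
  constructor
  · rintro ⟨g, hg, rfl⟩
    rcases mem_ball_succ.1 hg with h | ⟨s, h, h1, h2, rfl⟩
    · exact Or.inl ⟨g, h, rfl⟩
    · exact Or.inr ⟨s, h1, π h x, ⟨h, h2, rfl⟩, by rw [map_mul]; rfl⟩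
  · rintro (⟨g, hg, rfl⟩ | ⟨s, h1, z, ⟨h, h2, rfl⟩, rfl⟩)
    · exact ⟨g, mem_ball_succ.2 (Or.inl hg), rfl⟩
    · exact ⟨s * h, mem_ball_succ.2 (Or.inr ⟨s, h, h1, h2, rfl⟩), by rw [map_mul]; rfl⟩

/-- the component of `x` in `U`, up to distance `k` in `U` -/
def comp (π : E →* Equiv.Perm V) (S : Set E) (U : Set V) (x : V) : ℕ → Set V
  | 0 => {x}
  | k + 1 => comp π S U x k ∪ {y | y ∈ U ∧ ∃ s, (s ∈ S ∨ s⁻¹ ∈ S) ∧ ∃ z ∈ comp π S U x k, π s z = y}

theorem comp_sub_ball {π : E →* Equiv.Perm V} {S : Set E} {U : Set V} {x : V} (k : ℕ) :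
    comp π S U x k ⊆ orbitBall π S x k := by
  induction k with
  | zero =>
    rintro y rfl
    exact mem_orbitBall_self π S y 0
  | succ k ih =>
    rintro y (h | ⟨-, s, h1, z, h2, h3⟩)
    · exact orbitBall_mono (Nat.le_succ k) (ih h)
    · exact mem_orbitBall_succ.2 (Or.inr ⟨s, h1, z, ih h2, h3⟩)

theorem comp_sub {π : E →* Equiv.Perm V} {S : Set E} {U : Set V} {x : V} (hx : x ∈ U) (k : ℕ) :
    comp π S U x k ⊆ U := by
  induction k with
  | zero =>
    rintro y rfl
    exact hx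
  | succ k ih =>
    rintro y (h | ⟨h, -⟩)
    · exact ih h
    · exact h

theorem ball_sub_comp {π : E →* Equiv.Perm V} {S : Set E} {U : Set V} {x : V} {r : ℕ}
    (h : orbitBall π S x r ⊆ U) {k : ℕ} (hk : k ≤ r) : orbitBall π S x k ⊆ comp π S U x k := by
  induction k with
  | zero =>
    rintro y ⟨g, hg, rfl⟩
    rw [ball_zero] at hg
    rw [Set.mem_singleton_iff.1 hg, map_one]
    rfl
  | succ k ih =>
    intro y hy
    have hyU : y ∈ U := h (orbitBall_mono hk hy)
    rcases mem_orbitBall_succ.1 hy with h1 | ⟨s, h1, z, h2, h3⟩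
    · exact Or.inl (ih (by omega) h1)
    · exact Or.inr ⟨hyU, s, h1, z, ih (by omega) h2, h3⟩

theorem comp_mono {π : E →* Equiv.Perm V} {S : Set E} {U : Set V} {x : V} {k l : ℕ}
    (h : k ≤ l) : comp π S U x k ⊆ comp π S U x l := by
  induction h with
  | refl => exact subset_rfl
  | step _ ih => exact ih.trans Set.subset_union_left

theorem comp_stable {π : E →* Equiv.Perm V} {S : Set E} {U : Set V} {x : V} {k : ℕ}
    (h : comp π S U x (k + 1) = comp π S U x k) (l : ℕ) :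
    comp π S U x (k + l) = comp π S U x k := by
  induction l with
  | zero => rfl
  | succ l ih =>
    show comp π S U x (k + l) ∪ {y | y ∈ U ∧ ∃ s, (s ∈ S ∨ s⁻¹ ∈ S) ∧
      ∃ z ∈ comp π S U x (k + l), π s z = y} = _
    rw [ih]
    exact h

/-- It suffices to find sets `U` of bounded size with small boundary containing the balls. -/
theorem bottlenecks_of {π : E →* Equiv.Perm V} {S : Set E} (hSf : S.Finite)
    (hS : Subgroup.closure S = ⊤) (K : ℕ)
    (h : ∀ r : ℕ, ∃ M : ℕ, ∀ x : V, ∃ U : Set V, U.Finite ∧ U.ncard ≤ M ∧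
      orbitBall π S x r ⊆ U ∧ (bdry π S U).ncard ≤ K) : UniformBottlenecks π := by
  refine ⟨S, hSf, hS, K, fun r => ?_⟩
  obtain ⟨M, hM⟩ := h r
  refine ⟨M, fun x => ?_⟩
  obtain ⟨U, hU1, hU2, hU3, hU4⟩ := hM x
  have hx : x ∈ U := hU3 (mem_orbitBall_self π S x r)
  -- the component stabilizes
  have hst : ∃ k, k ≤ M ∧ comp π S U x (k + 1) = comp π S U x k := by
    by_contra hcon
    push Not at hcon
    have h1 : ∀ k, k ≤ M + 1 → k + 1 ≤ (comp π S U x k).ncard := by
      intro k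
      induction k with
      | zero =>
        intro _
        show 1 ≤ ({x} : Set V).ncard
        rw [Set.ncard_singleton]
      | succ k ih =>
        intro hk
        have h2 := ih (by omega)
        have h3 : comp π S U x k ⊂ comp π S U x (k + 1) :=
          (Set.subset_union_left).ssubset_of_ne (fun h => hcon k (by omega) h.symm)
        have h4 := Set.ncard_lt_ncard h3 (hU1.subset (comp_sub hx _))
        omega
    have h2 := h1 (M + 1) le_rfl
    have h3 := Set.ncard_le_ncard (comp_sub (π := π) (S := S) hx (M + 1)) hU1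
    omega
  obtain ⟨k, hk, hk2⟩ := hst
  refine ⟨comp π S U x k, ?_, (comp_sub_ball k).trans (orbitBall_mono hk), ?_⟩
  · refine (ball_sub_comp hU3 le_rfl).trans ?_
    rcases Nat.le_total r k with h1 | h1
    · exact comp_mono h1
    · obtain ⟨l, rfl⟩ := Nat.exists_eq_add_of_le h1
      rw [comp_stable hk2]
  · refine (Set.ncard_le_ncard ?_ (hU1.subset fun v hv => hv.1)).trans hU4
    rintro v ⟨h1, s, h2, h3⟩
    refine ⟨comp_sub hx k h1, s, h2, fun h4 => h3 ?_⟩
    rw [← hk2]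
    exact Or.inr ⟨h4, s, h2, v, h1, rfl⟩

/-- Linear orbit growth gives bottlenecks. -/
theorem LinearOrbitGrowth.bottlenecks {π : E →* Equiv.Perm V} (h : LinearOrbitGrowth π) :
    UniformBottlenecks π := by
  obtain ⟨S, hSf, hS, C, hC⟩ := h
  refine ⟨S, hSf, hS, 2 * C, fun r => ?_⟩
  obtain ⟨R, hR, hb⟩ := hC (2 * r + 2)
  refine ⟨R, fun x => ?_⟩
  have hfin := fun n => orbitBall_finite (π := π) hSf x n
  -- a small sphere
  have hsph : ∃ i, r ≤ i ∧ i < R ∧
      (orbitBall π S x (i + 1) \ orbitBall π S x i).ncard ≤ 2 * C := by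
    by_contra hcon
    push Not at hcon
    have h1 : ∀ j, r + j ≤ R → (2 * C + 1) * j ≤ (orbitBall π S x (r + j)).ncard := by
      intro j
      induction j with
      | zero => intro _; simp
      | succ j ih =>
        intro hj
        have h2 := ih (by omega)
        have h3 := hcon (r + j) (by omega) (by omega)
        have h4 := Set.ncard_sdiff_add_ncard_of_subset
          (orbitBall_mono (π := π) (S := S) (x := x) (Nat.le_succ (r + j))) (hfin _)
        have h5 : (2 * C + 1) * (j + 1) = (2 * C + 1) * j + (2 * C + 1) := by ring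
        have h6 : r + (j + 1) = r + j + 1 := by ring
        rw [h5, h6]
        have h7 : (r + j).succ = r + j + 1 := rfl
        rw [h7] at h4
        omega
    have h2 := h1 (R - r) (by omega)
    rw [Nat.add_sub_cancel' (by omega)] at h2
    have h3 := hb x
    have h4 : 2 * C * (R - r) + (R - r) ≤ C * R := by
      have : (2 * C + 1) * (R - r) = 2 * C * (R - r) + (R - r) := by ring
      omega
    have h5 : C * R ≤ 2 * C * (R - r) := by
      have : 2 * C * (R - r) = C * (2 * (R - r)) := by ring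
      rw [this]
      exact Nat.mul_le_mul_left C (by omega)
    omega
  obtain ⟨i, hi1, hi2, hi3⟩ := hsph
  refine ⟨orbitBall π S x (i + 1), orbitBall_mono (by omega), orbitBall_mono (by omega), ?_⟩
  refine (Set.ncard_le_ncard ?_ ((hfin _).subset Set.sdiff_subset)).trans hi3
  rintro v ⟨h1, s, h2, h3⟩
  refine ⟨h1, fun h4 => h3 ?_⟩
  exact mem_orbitBall_succ.2 (Or.inr ⟨s, h2, v, h4, rfl⟩)

end Pool.Agent.Lib.Helper67.BN
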