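import Pool.Agent.Lib.Helper67.BN.Automata

/-!
# Actions on rays by elements of the bounded group
-/

namespace Pool.Agent.Lib.Helper67.BN

open Pool.Agent.Lib.Helper67.BA
open Pool.Agent.Lib.Helper67.BA.TA

universe u

/-- Automorphisms of the rooted tree `X^*` of finite words: permutations of the set of words which
preserve the length and the relation of being an initial segment. -/
def IsTreeAutomorphism {X : Type} (g : Equiv.Perm (List X)) : Prop :=
  (∀ w : List X, (g w).length = w.length) ∧ ∀ v w : List X, g v <+: g (v ++ w)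

/-- The section of `g` at the word `v`: the self-map of the set of words with
`g (v ++ w) = g v ++ sectionAt g v w` (when `g` is a tree automorphism). -/
def sectionAt {X : Type} (g : Equiv.Perm (List X)) (v w : List X) : List X :=
  (g (v ++ w)).drop v.length

/-- The section of `g` at `v` changes only the first `k` letters of words. -/
def FinitaryAt {X : Type} (g : Equiv.Perm (List X)) (v : List X) (k : ℕ) : Prop :=
  ∀ u w : List X, u.length = k → sectionAt g v (u ++ w) = sectionAt g v u ++ w

/-- The number of nontrivial sections of `g` at words of length `n` is bounded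
independently of `n`. -/
def BoundedActivity {X : Type} (g : Equiv.Perm (List X)) : Prop :=
  ∃ C : ℕ, ∀ n : ℕ, {v : List X | v.length = n ∧ sectionAt g v ≠ id}.ncard ≤ C

/-- The depths of the finitary sections of `g` are bounded. -/
def BoundedDepth {X : Type} (g : Equiv.Perm (List X)) : Prop :=
  ∃ D : ℕ, ∀ v : List X, (∃ k, FinitaryAt g v k) → FinitaryAt g v D

/-- `g` has only finitely many sections. -/
def FiniteState {X : Type} (g : Equiv.Perm (List X)) : Prop :=
  (Set.range (sectionAt g)).Finite

/-- The group generated by all tree automorphisms of bounded activity which are finite-state or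
have bounded depth. -/
def BoundedGroup (X : Type) : Subgroup (Equiv.Perm (List X)) :=
  Subgroup.closure
    {g | IsTreeAutomorphism g ∧ BoundedActivity g ∧ (FiniteState g ∨ BoundedDepth g)}

/-- `f` is the action of `g` on the infinite words: initial segments are mapped by `g`. -/
def ActsOnRays {X : Type} (g : Equiv.Perm (List X)) (f : Equiv.Perm (ℕ → X)) : Prop :=
  ∀ (ξ : ℕ → X) (n : ℕ), (List.range n).map (f ξ) = g ((List.range n).map ξ)

theorem sectionAt_eq {X : Type} (g : TA X) (v : List X) :
    sectionAt (g : Equiv.Perm (List X)) v = (TA.sec g v : TA X) := rfl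

theorem bdd_of {X : Type} (g : TA X) (h1 : BoundedActivity (g : Equiv.Perm (List X)))
    (h2 : BoundedDepth (g : Equiv.Perm (List X))) : Bdd g := by
  constructor
  · obtain ⟨C, hC⟩ := h1
    refine ⟨C, fun n => ?_⟩
    have h3 : {v : List X | v.length = n ∧ TA.sec g v ≠ 1} =
        {v : List X | v.length = n ∧ sectionAt (g : Equiv.Perm (List X)) v ≠ id} := by
      ext v
      constructor
      · rintro ⟨h3, h4⟩
        refine ⟨h3, fun h5 => h4 ?_⟩
        ext1 w
        exact congrFun h5 w
      · rintro ⟨h3, h4⟩
        refine ⟨h3, fun h5 => h4 ?_⟩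
        rw [sectionAt_eq, h5]
        rfl
    rw [h3]
    exact hC n
  · have key : ∀ v k, FinitaryAt (g : Equiv.Perm (List X)) v k ↔ TA.sec g v ∈ Dep X k := by
      intro v k
      constructor
      · intro h u hu
        apply TA.sec_unique
        intro w
        exact h u w hu
      · intro h u w hu
        have h3 := TA.append (TA.sec g v) u w
        rw [h u hu] at h3
        exact h3
    obtain ⟨D, hD⟩ := h2
    refine ⟨D, fun v hv => ?_⟩
    rw [← key]
    apply hD
    obtain ⟨k, hk⟩ := hv
    exact ⟨k, (key v k).2 hk⟩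

theorem boundedDepth_of_finiteState {X : Type} (g : TA X)
    (h : FiniteState (g : Equiv.Perm (List X))) : BoundedDepth (g : Equiv.Perm (List X)) := by
  classical
  have hmono : ∀ (v : List X) (k l : ℕ), k ≤ l → FinitaryAt (g : Equiv.Perm (List X)) v k →
      FinitaryAt (g : Equiv.Perm (List X)) v l := by
    intro v k l hkl hk u w hu
    have h1 : u = u.take k ++ u.drop k := (List.take_append_drop k u).symm
    have h2 : (u.take k).length = k := by rw [List.length_take]; omega
    have h3 := hk (u.take k) (u.drop k ++ w) h2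
    have h4 := hk (u.take k) (u.drop k) h2
    rw [← List.append_assoc, ← h1] at h3
    rw [← h1] at h4
    rw [h3, h4, List.append_assoc]
  -- a depth for each section
  have h1 : ∀ s : List X → List X, ∃ k, ∀ v, sectionAt (g : Equiv.Perm (List X)) v = s →
      (∃ l, FinitaryAt (g : Equiv.Perm (List X)) v l) →
      FinitaryAt (g : Equiv.Perm (List X)) v k := by
    intro s
    by_cases hs : ∃ v, sectionAt (g : Equiv.Perm (List X)) v = s ∧
        ∃ l, FinitaryAt (g : Equiv.Perm (List X)) v l
    · obtain ⟨v, hv, l, hl⟩ := hs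
      refine ⟨l, fun v' hv' _ => ?_⟩
      intro u w hu
      have h2 := hl u w hu
      rw [hv] at h2
      rw [hv']
      exact h2
    · exact ⟨0, fun v hv hl => absurd ⟨v, hv, hl⟩ hs⟩
  choose K hK using h1
  obtain ⟨D, hD⟩ := (h.image K).bddAbove
  refine ⟨D, fun v hv => ?_⟩
  exact hmono v _ D (hD ⟨_, ⟨v, rfl⟩, rfl⟩) (hK _ v rfl hv)

theorem mem_boundedGroup {X : Type} [Finite X] {g : Equiv.Perm (List X)}
    (hg : g ∈ BoundedGroup X) : ∃ h : TA X, (h : Equiv.Perm (List X)) = g ∧ Bdd h := by
  have h1 : BoundedGroup X ≤ (BG X).map (TA X).subtype := by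
    unfold BoundedGroup
    rw [Subgroup.closure_le]
    rintro g ⟨h1, h2, h3⟩
    refine ⟨⟨g, h1⟩, bdd_of ⟨g, h1⟩ h2 ?_, rfl⟩
    rcases h3 with h3 | h3
    · exact boundedDepth_of_finiteState ⟨g, h1⟩ h3
    · exact h3
  obtain ⟨h, h2, h3⟩ := h1 hg
  exact ⟨h, h3, h2⟩

theorem eq_of_ray {X : Type} [Nonempty X] {g h : TA X} (H : ∀ ξ, ray g ξ = ray h ξ) : g = h := by
  obtain ⟨a⟩ := ‹Nonempty X›
  apply TA.ext
  intro w
  have h1 := pref_ray g (app w fun _ => a) w.length
  have h2 := pref_ray h (app w fun _ => a) w.length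
  rw [pref_app] at h1 h2
  rw [← h1, ← h2, H]

theorem bottlenecks_rays {X : Type} [Finite X] {E : Type u} [Group E] {S : Set E}
    (hSf : S.Finite) (hS : Subgroup.closure S = ⊤) (π : E →* Equiv.Perm (ℕ → X))
    (hπ : ∀ e : E, ∃ g ∈ BoundedGroup X, ActsOnRays g (π e)) : UniformBottlenecks π := by
  rcases isEmpty_or_nonempty X with hX | hX
  · exact ⟨S, hSf, hS, 0, fun r => ⟨0, fun x => (hX.false (x 0)).elim⟩⟩
  choose g hg1 hg2 using hπ
  choose f hf1 hf2 using fun e => mem_boundedGroup (hg1 e)
  have hray : ∀ e ξ, ray (f e) ξ = π e ξ := by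
    intro e ξ
    rw [ray_eq_iff]
    intro n
    have h1 := hg2 e ξ n
    rw [← hf1 e] at h1
    exact h1.symm
  let j : E →* TA X :=
    { toFun := f
      map_one' := eq_of_ray fun ξ => by rw [hray, map_one, ray_one]; rfl
      map_mul' := fun a b => eq_of_ray fun ξ => by
        rw [hray, map_mul, ray_mul, hray, hray]; rfl }
  have h1 : (rayHom X).comp j = π := by
    ext e ξ
    show ray (f e) ξ _ = _
    rw [hray]
  rw [← h1]
  exact bottlenecks_automata j hf2 hSf hS

end Pool.Agent.Lib.Helper67.BN
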