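import Pool.Agent.Lib.Helper67.BN.Basic

/-!
# Bounded displacement in a graph with bottlenecks
-/

namespace Pool.Agent.Lib.Helper67.BN

universe u v

variable {E : Type u} [Group E] {V : Type v}

/-- ball in a graph -/
def gBall (Γ : SimpleGraph V) (v : V) (n : ℕ) : Set V := {w | Γ.Reachable v w ∧ Γ.dist v w ≤ n}

/-- bounded degree -/
def BoundedDegree (Γ : SimpleGraph V) : Prop :=
  ∃ d : ℕ, ∀ v : V, (Γ.neighborSet v).encard ≤ (d : ℕ∞)

/-- Every ball of radius `r` lies in a finite set of size at most `M r` with at most `K` boundary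
points. -/
def GraphBottlenecks (Γ : SimpleGraph V) : Prop :=
  ∃ K : ℕ, ∀ r : ℕ, ∃ M : ℕ, ∀ v : V, ∃ F : Set V, F.Finite ∧ F.ncard ≤ M ∧
    (∀ w, Γ.Reachable v w → Γ.dist v w ≤ r → w ∈ F) ∧
    {u | u ∈ F ∧ ∃ w, w ∉ F ∧ Γ.Adj u w}.ncard ≤ K

/-- A graph of linear growth: for some `C` there are arbitrarily large radii `R` for which all
balls of radius `R` have at most `C * R` points. -/
def LinearBalls (Γ : SimpleGraph V) : Prop :=
  ∃ C : ℕ, ∀ R₀ : ℕ, ∃ R : ℕ, R₀ ≤ R ∧
    ∀ v : V, {w : V | Γ.Reachable v w ∧ Γ.dist v w ≤ R}.encard ≤ ((C * R : ℕ) : ℕ∞)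

/-- vertices of `F` with a neighbour outside -/
def gBdry (Γ : SimpleGraph V) (F : Set V) : Set V := {u | u ∈ F ∧ ∃ w, w ∉ F ∧ Γ.Adj u w}

/-- `g` has bounded displacement in the graph. -/
def BoundedDisplacement (Γ : SimpleGraph V) (g : Equiv.Perm V) : Prop :=
  ∃ C : ℕ, ∀ v : V, Γ.Reachable v (g v) ∧ Γ.dist v (g v) ≤ C

theorem gdist_le_add {Γ : SimpleGraph V} {a b c : V} (h1 : Γ.Reachable a b)
    (h2 : Γ.Reachable b c) : Γ.dist a c ≤ Γ.dist a b + Γ.dist b c := by
  obtain ⟨p, hp⟩ := h1.exists_walk_length_eq_dist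
  obtain ⟨q, hq⟩ := h2.exists_walk_length_eq_dist
  rw [← hp, ← hq, ← SimpleGraph.Walk.length_append]
  exact SimpleGraph.dist_le _

theorem gBall_of_walk {Γ : SimpleGraph V} {v w : V} (p : Γ.Walk v w) {n : ℕ}
    (h : p.length ≤ n) : w ∈ gBall Γ v n :=
  ⟨p.reachable, (SimpleGraph.dist_le p).trans h⟩

/-- balls in a graph of bounded degree -/
theorem gBall_le {Γ : SimpleGraph V} {d : ℕ} (hd : ∀ v : V, (Γ.neighborSet v).encard ≤ (d : ℕ∞))
    (n : ℕ) : ∀ v : V, (gBall Γ v n).Finite ∧ (gBall Γ v n).ncard ≤ (d + 1) ^ n := by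
  intro v
  induction n with
  | zero =>
    have h1 : gBall Γ v 0 ⊆ {v} := by
      rintro w ⟨h1, h2⟩
      exact ((h1.dist_eq_zero_iff.1 (Nat.le_zero.1 h2))).symm
    refine ⟨(Set.finite_singleton v).subset h1, ?_⟩
    refine (Set.ncard_le_ncard h1 (Set.finite_singleton v)).trans ?_
    rw [Set.ncard_singleton, pow_zero]
  | succ n ih =>
    obtain ⟨hf, hc⟩ := ih
    have hnb : ∀ u : V, (insert u (Γ.neighborSet u)).Finite ∧
        (insert u (Γ.neighborSet u)).ncard ≤ d + 1 := by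
      intro u
      have h1 := hd u
      obtain ⟨h2, m, h3, h4⟩ := Set.encard_le_coe_iff.1 h1
      refine ⟨h2.insert u, (Set.ncard_insert_le _ _).trans ?_⟩
      have h5 : (Γ.neighborSet u).ncard = m := by
        rw [Set.ncard, h3]
        rfl
      omega
    have h1 : gBall Γ v (n + 1) ⊆ ⋃ u ∈ gBall Γ v n, insert u (Γ.neighborSet u) := by
      rintro w ⟨h1, h2⟩
      obtain ⟨p, hp⟩ := h1.exists_walk_length_eq_dist
      by_cases h3 : Γ.dist v w ≤ n
      · exact Set.mem_biUnion (x := w) ⟨h1, h3⟩ (Set.mem_insert _ _)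
      · have h4 : p.length = n + 1 := by omega
        have h5 : n ≤ p.length := by omega
        have h6 : Γ.Adj (p.getVert n) (p.getVert (n + 1)) := p.adj_getVert_succ (by omega)
        have h7 : p.getVert (n + 1) = w := by
          rw [← h4]
          exact p.getVert_length
        rw [h7] at h6
        refine Set.mem_biUnion (x := p.getVert n) ?_ (Set.mem_insert_of_mem _ h6)
        exact gBall_of_walk (p.take n) ((p.take_length n).trans_le (min_le_left _ _))
    have hfin : (⋃ u ∈ gBall Γ v n, insert u (Γ.neighborSet u)).Finite :=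
      hf.biUnion fun u _ => (hnb u).1
    refine ⟨hfin.subset h1, (Set.ncard_le_ncard h1 hfin).trans ?_⟩
    have h2 := hf.toFinset.set_ncard_biUnion_le (fun u => insert u (Γ.neighborSet u))
    have h3 : (⋃ u ∈ gBall Γ v n, insert u (Γ.neighborSet u)) =
        ⋃ u ∈ hf.toFinset, insert u (Γ.neighborSet u) := by
      ext v
      simp
    rw [h3]
    refine h2.trans ((Finset.sum_le_card_nsmul _ _ (d + 1) fun u _ => (hnb u).2).trans ?_)
    rw [smul_eq_mul, ← Set.ncard_eq_toFinset_card _ hf, pow_succ]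
    exact Nat.mul_le_mul_right _ hc

theorem exists_bdry {Γ : SimpleGraph V} {F : Set V} {a b : V} (p : Γ.Walk a b) (ha : a ∈ F)
    (hb : b ∉ F) : ∃ u ∈ gBdry Γ F, u ∈ gBall Γ a p.length := by
  induction p with
  | nil => exact absurd ha hb
  | @cons a c b h q ih =>
    by_cases hc : c ∈ F
    · obtain ⟨u, h1, h2, h3⟩ := ih hc hb
      refine ⟨u, h1, h.reachable.trans h2, ?_⟩
      refine (gdist_le_add h.reachable h2).trans ?_
      rw [SimpleGraph.Walk.length_cons, SimpleGraph.dist_eq_one_iff_adj.2 h]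
      omega
    · exact ⟨a, ⟨ha, c, hc, h⟩, SimpleGraph.Reachable.refl a, by simp⟩

/-- A finitely generated group acting by bounded displacements in a graph of bounded degree with
uniform bottlenecks acts with uniform bottlenecks. -/
theorem bottlenecks_graph {π : E →* Equiv.Perm V} {S : Set E} (hSf : S.Finite)
    (hS : Subgroup.closure S = ⊤) {Γ : SimpleGraph V} (hdeg : BoundedDegree Γ)
    (hΓ : GraphBottlenecks Γ) (hπ : ∀ e : E, BoundedDisplacement Γ (π e)) :
    UniformBottlenecks π := by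
  obtain ⟨d, hd⟩ := hdeg
  obtain ⟨K, hK⟩ := hΓ
  choose D hD using hπ
  obtain ⟨M, hM⟩ := ((finite_T hSf).image D).bddAbove
  have hM' : ∀ s : E, s ∈ S ∨ s⁻¹ ∈ S → D s ≤ M := fun s hs => hM ⟨s, hs, rfl⟩
  have hword : ∀ (r : ℕ) (v : V), orbitBall π S v r ⊆ gBall Γ v (M * r) := by
    intro r v
    induction r with
    | zero =>
      rintro y ⟨g, hg, rfl⟩
      rw [ball_zero] at hg
      rw [Set.mem_singleton_iff.1 hg, map_one]
      exact ⟨SimpleGraph.Reachable.refl v, by simp⟩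
    | succ r ih =>
      intro y hy
      have h0 : M * (r + 1) = M * r + M := by ring
      rcases mem_orbitBall_succ.1 hy with h1 | ⟨s, h1, z, h2, rfl⟩
      · obtain ⟨h2, h3⟩ := ih h1
        exact ⟨h2, by omega⟩
      · obtain ⟨h3, h4⟩ := ih h2
        obtain ⟨h5, h6⟩ := hD s z
        have h7 := hM' s h1
        exact ⟨h3.trans h5, (gdist_le_add h3 h5).trans (by omega)⟩
  apply bottlenecks_of hSf hS (K * (d + 1) ^ M)
  intro r
  obtain ⟨R, hR⟩ := hK (M * r)
  refine ⟨R, fun x => ?_⟩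
  obtain ⟨F, h1, h2, h3, h4⟩ := hR x
  have hbfin : (gBdry Γ F).Finite := h1.subset fun v hv => hv.1
  refine ⟨F, h1, h2, fun y hy => h3 y (hword r x hy).1 (hword r x hy).2, ?_⟩
  have hsub : bdry π S F ⊆ ⋃ u ∈ gBdry Γ F, gBall Γ u M := by
    rintro v ⟨hv, s, hs, hs2⟩
    obtain ⟨h8, h9⟩ := hD s v
    obtain ⟨p, hp⟩ := h8.exists_walk_length_eq_dist
    obtain ⟨u, hu, h10, h11⟩ := exists_bdry p hv hs2
    have h12 := hM' s hs
    refine Set.mem_biUnion hu ⟨h10.symm, ?_⟩
    rw [SimpleGraph.dist_comm]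
    omega
  have hfin : (⋃ u ∈ gBdry Γ F, gBall Γ u M).Finite := hbfin.biUnion fun u _ => (gBall_le hd M u).1
  refine (Set.ncard_le_ncard hsub hfin).trans ?_
  have h13 := hbfin.toFinset.set_ncard_biUnion_le (fun u => gBall Γ u M)
  have h14 : (⋃ u ∈ gBdry Γ F, gBall Γ u M) = ⋃ u ∈ hbfin.toFinset, gBall Γ u M := by
    ext v
    simp
  rw [h14]
  refine h13.trans ((Finset.sum_le_card_nsmul _ _ ((d + 1) ^ M)
    fun u _ => (gBall_le hd M u).2).trans ?_)
  rw [smul_eq_mul, ← Set.ncard_eq_toFinset_card _ hbfin]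
  exact Nat.mul_le_mul_right _ h4

/-- Graphs of linear growth have bounded degree and bottlenecks. -/
theorem LinearBalls.bottlenecks {Γ : SimpleGraph V} (h : LinearBalls Γ) :
    BoundedDegree Γ ∧ GraphBottlenecks Γ := by
  obtain ⟨C, hC⟩ := h
  constructor
  · obtain ⟨R, hR, hb⟩ := hC 1
    refine ⟨C * R, fun v => (Set.encard_le_encard ?_).trans (hb v)⟩
    intro w hw
    have hw' : Γ.Adj v w := hw
    exact ⟨hw'.reachable, by rw [SimpleGraph.dist_eq_one_iff_adj.2 hw']; exact hR⟩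
  · refine ⟨2 * C, fun r => ?_⟩
    obtain ⟨R, hR, hb⟩ := hC (2 * r + 2)
    have hb' : ∀ v : V, (gBall Γ v R).Finite ∧ (gBall Γ v R).ncard ≤ C * R := by
      intro v
      obtain ⟨h2, m, h3, h4⟩ := Set.encard_le_coe_iff.1 (hb v)
      refine ⟨h2, ?_⟩
      have h5 : (gBall Γ v R).ncard = m := by
        rw [Set.ncard]
        show ({w : V | Γ.Reachable v w ∧ Γ.dist v w ≤ R}.encard).toNat = m
        rw [h3]
        rfl
      omega
    refine ⟨C * R, fun x => ?_⟩
    have hmono : ∀ m n : ℕ, m ≤ n → gBall Γ x m ⊆ gBall Γ x n :=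
      fun m n hmn w hw => ⟨hw.1, hw.2.trans hmn⟩
    have hfin : ∀ n, n ≤ R → (gBall Γ x n).Finite := fun n hn => (hb' x).1.subset (hmono n R hn)
    -- a small sphere
    have hsph : ∃ i, r ≤ i ∧ i < R ∧ (gBall Γ x (i + 1) \ gBall Γ x i).ncard ≤ 2 * C := by
      by_contra hcon
      push Not at hcon
      have h1 : ∀ j, r + j ≤ R → (2 * C + 1) * j ≤ (gBall Γ x (r + j)).ncard := by
        intro j
        induction j with
        | zero => intro _; simp
        | succ j ih =>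
          intro hj
          have h2 := ih (by omega)
          have h3 := hcon (r + j) (by omega) (by omega)
          have h4 := Set.ncard_sdiff_add_ncard_of_subset
            (hmono (r + j) (r + j + 1) (by omega)) (hfin _ (by omega))
          have h5 : (2 * C + 1) * (j + 1) = (2 * C + 1) * j + (2 * C + 1) := by ring
          have h6 : r + (j + 1) = r + j + 1 := by ring
          rw [h5, h6]
          omega
      have h2 := h1 (R - r) (by omega)
      rw [Nat.add_sub_cancel' (by omega)] at h2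
      have h3 := (hb' x).2
      have h4 : 2 * C * (R - r) + (R - r) ≤ C * R := by
        have : (2 * C + 1) * (R - r) = 2 * C * (R - r) + (R - r) := by ring
        omega
      have h5 : C * R ≤ 2 * C * (R - r) := by
        have : 2 * C * (R - r) = C * (2 * (R - r)) := by ring
        rw [this]
        exact Nat.mul_le_mul_left C (by omega)
      omega
    obtain ⟨i, hi1, hi2, hi3⟩ := hsph
    refine ⟨gBall Γ x (i + 1), hfin _ (by omega),
      (Set.ncard_le_ncard (hmono _ _ (by omega)) (hfin R le_rfl)).trans (hb' x).2,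
      fun w h1 h2 => ⟨h1, by omega⟩, ?_⟩
    refine (Set.ncard_le_ncard ?_ ((hfin (i + 1) (by omega)).subset Set.sdiff_subset)).trans hi3
    rintro v ⟨h1, w, h2, h3⟩
    refine ⟨h1, fun h4 => h2 ⟨h1.1.trans h3.reachable, ?_⟩⟩
    refine (gdist_le_add h1.1 h3.reachable).trans ?_
    rw [SimpleGraph.dist_eq_one_iff_adj.2 h3]
    have := h4.2
    omega

/-- `g` is piecewise a power of `φ`, with bounded exponents. -/
def PiecewisePower (φ g : Equiv.Perm V) : Prop :=
  ∃ N : ℕ, ∀ v : V, ∃ n : ℤ, |n| ≤ N ∧ g v = (φ ^ n) v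

/-- Groups acting by piecewise powers of one permutation have linear orbit growth. -/
theorem linear_of_piecewise {π : E →* Equiv.Perm V} {S : Set E} (hSf : S.Finite)
    (hS : Subgroup.closure S = ⊤) (φ : Equiv.Perm V) (hπ : ∀ e : E, PiecewisePower φ (π e)) :
    LinearOrbitGrowth π := by
  choose D hD using hπ
  obtain ⟨M, hM⟩ := ((finite_T hSf).image D).bddAbove
  have hM' : ∀ s : E, s ∈ S ∨ s⁻¹ ∈ S → D s ≤ M := fun s hs => hM ⟨s, hs, rfl⟩
  have hword : ∀ (l : List E), (∀ s ∈ l, s ∈ S ∨ s⁻¹ ∈ S) → ∀ v : V,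
      ∃ n : ℤ, |n| ≤ M * l.length ∧ π l.prod v = (φ ^ n) v := by
    intro l
    induction l with
    | nil =>
      intro _ v
      exact ⟨0, by simp, by rw [List.prod_nil, map_one, zpow_zero]⟩
    | cons s l ih =>
      intro hl v
      obtain ⟨m, h1, h2⟩ := ih (fun t ht => hl t (List.mem_cons_of_mem _ ht)) v
      obtain ⟨n, h3, h4⟩ := hD s (π l.prod v)
      have h5 := hM' s (hl s List.mem_cons_self)
      refine ⟨n + m, (abs_add_le n m).trans ?_, ?_⟩
      · rw [List.length_cons]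
        push_cast
        have h6 : (D s : ℤ) ≤ M := by exact_mod_cast h5
        nlinarith
      · rw [List.prod_cons, map_mul, Equiv.Perm.mul_apply, h4, h2, zpow_add,
          Equiv.Perm.mul_apply]
  refine ⟨S, hSf, hS, 2 * M + 1, fun R₀ => ⟨R₀ + 1, by omega, fun x => ?_⟩⟩
  have h1 : orbitBall π S x (R₀ + 1) ⊆
      (fun n : ℤ => (φ ^ n) x) '' (Set.Icc (-((M * (R₀ + 1) : ℕ) : ℤ)) ((M * (R₀ + 1) : ℕ) : ℤ)) := by
    rintro _ ⟨g, ⟨l, hl1, hl2, rfl⟩, rfl⟩
    obtain ⟨n, h2, h3⟩ := hword l hl2 x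
    refine ⟨n, ?_, h3.symm⟩
    have h4 : |n| ≤ ((M * (R₀ + 1) : ℕ) : ℤ) := by
      refine h2.trans ?_
      exact_mod_cast Nat.mul_le_mul_left M hl1
    rw [abs_le] at h4
    exact h4
  have h2 := Set.ncard_le_ncard h1 ((Set.finite_Icc _ _).image _)
  have h3 := Set.ncard_image_le (f := fun n : ℤ => (φ ^ n) x) (Set.finite_Icc
    (-((M * (R₀ + 1) : ℕ) : ℤ)) ((M * (R₀ + 1) : ℕ) : ℤ))
  have h4 : (Set.Icc (-((M * (R₀ + 1) : ℕ) : ℤ)) ((M * (R₀ + 1) : ℕ) : ℤ)).ncard =
      2 * (M * (R₀ + 1)) + 1 := by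
    rw [Set.ncard_eq_toFinset_card', Set.toFinset_Icc, Int.card_Icc]
    omega
  have h5 : 2 * (M * (R₀ + 1)) + 1 ≤ (2 * M + 1) * (R₀ + 1) := by
    have h6 : (2 * M + 1) * (R₀ + 1) = 2 * (M * (R₀ + 1)) + (R₀ + 1) := by ring
    omega
  omega

end Pool.Agent.Lib.Helper67.BN
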