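import Pool.Agent.Lib.Helper67.BA.Norm
import Pool.Agent.Lib.Helper67.BN.Basic

/-!
# Singular rays of bounded automorphisms
-/

namespace Pool.Agent.Lib.Helper67.BN

open Pool.Agent.Lib.Helper67.BA
open Pool.Agent.Lib.Helper67.BA.TA

variable {X : Type}

/-- a word followed by a ray -/
def app (v : List X) (ξ : ℕ → X) : ℕ → X := fun i =>
  if h : i < v.length then v[i] else ξ (i - v.length)

theorem shift_app (v : List X) (ξ : ℕ → X) : shift v.length (app v ξ) = ξ := by
  funext i
  show (if h : v.length + i < v.length then v[v.length + i] else ξ (v.length + i - v.length)) = _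
  rw [dif_neg (by omega), Nat.add_sub_cancel_left]

theorem pref_app (v : List X) (ξ : ℕ → X) : pref (app v ξ) v.length = v := by
  apply List.ext_getElem
  · rw [length_pref]
  · intro i h1 h2
    rw [pref_get _ _ _ h2]
    show (if h : i < v.length then v[i] else ξ (i - v.length)) = _
    rw [dif_pos h2]

theorem pref_app_add (v : List X) (ξ : ℕ → X) (l : ℕ) :
    pref (app v ξ) (v.length + l) = v ++ pref ξ l := by
  rw [pref_add, pref_app, shift_app]

theorem pref_app' {v : List X} {n : ℕ} (h : v.length = n) (ξ : ℕ → X) :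
    pref (app v ξ) n = v := by
  subst h
  exact pref_app v ξ

theorem pref_app_add' {v : List X} {n : ℕ} (h : v.length = n) (ξ : ℕ → X) (l : ℕ) :
    pref (app v ξ) (n + l) = v ++ pref ξ l := by
  subst h
  exact pref_app_add v ξ l

theorem app_pref_shift (ξ : ℕ → X) (n : ℕ) : app (pref ξ n) (shift n ξ) = ξ := by
  funext i
  unfold app
  split_ifs with h
  · rw [length_pref] at h
    exact pref_get ξ n i h
  · rw [length_pref] at h ⊢
    show ξ (n + (i - n)) = ξ i
    congr 1
    omega

theorem pref_take (ξ : ℕ → X) {m n : ℕ} (h : m ≤ n) : (pref ξ n).take m = pref ξ m := by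
  obtain ⟨k, rfl⟩ := Nat.exists_eq_add_of_le h
  rw [pref_add, List.take_left' (length_pref ξ m)]

theorem pref_eq_of_le {ξ η : ℕ → X} {m n : ℕ} (h : m ≤ n) (h1 : pref ξ n = pref η n) :
    pref ξ m = pref η m := by
  rw [← pref_take ξ h, ← pref_take η h, h1]

theorem apply_eq_of_pref {ξ η : ℕ → X} {i n : ℕ} (h : i < n) (h1 : pref ξ n = pref η n) :
    ξ i = η i := by
  have h2 := pref_get ξ n i h
  have h3 := pref_get η n i h
  rw [← h2, ← h3]
  congr 1

/-- `ρ` is singular for `g`: the sections of `g` along `ρ` are not finitary. -/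
def Sing (g : TA X) (ρ : ℕ → X) : Prop := ∀ k, NF g (pref ρ k)

theorem Sing.inv {g : TA X} {ρ : ℕ → X} (h : Sing g ρ) : Sing g⁻¹ (ray g ρ) := by
  intro k l hl
  rw [pref_ray, sec_inv, inv_apply_self, inv_mem_iff] at hl
  exact h k l hl

theorem sing_of_bdd [Finite X] {g : TA X} (hg : Bdd g) : ∃ n₀ D : ℕ, {ρ | Sing g ρ}.Finite ∧
    ∀ w : List X, n₀ ≤ w.length → sec g w ∈ Dep X D ∨ ∃ ρ, Sing g ρ ∧ w = pref ρ w.length := by
  obtain ⟨n₀, hn₀⟩ := norm_aux hg
  obtain ⟨-, D, hD⟩ := hg
  refine ⟨n₀, D, ?_, fun w hw => ?_⟩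
  · apply Set.Finite.of_finite_image (f := fun ρ => pref ρ n₀)
    · refine (finite_words (X := X) n₀).subset ?_
      rintro _ ⟨ρ, -, rfl⟩
      exact length_pref ρ n₀
    · intro ρ hρ ρ' hρ' h
      obtain ⟨ξ, hξ⟩ := hn₀ (pref ρ n₀) (by rw [length_pref]) (hρ n₀)
      have h1 : pref ρ n₀ = pref ρ' n₀ := h
      have key : ∀ τ : ℕ → X, Sing g τ → pref τ n₀ = pref ρ n₀ → shift n₀ τ = ξ := by
        intro τ hτ h2
        apply ray_ext
        intro l
        have h3 := hτ (n₀ + l)
        rw [pref_add, h2] at h3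
        have h4 := (hξ _).1 h3
        rw [length_pref] at h4
        exact h4
      have h5 : shift n₀ ρ = shift n₀ ρ' := by
        rw [key ρ hρ rfl, key ρ' hρ' h1.symm]
      rw [← app_pref_shift ρ n₀, ← app_pref_shift ρ' n₀, h1, h5]
  · by_cases hnf : NF g w
    · right
      have hv : (w.take n₀).length = n₀ := by rw [List.length_take]; omega
      have hnf' : NF g (w.take n₀) := by
        rw [← List.take_append_drop n₀ w] at hnf
        exact hnf.of_append
      obtain ⟨ξ, hξ⟩ := hn₀ _ hv.ge hnf'
      have hw2 : w.drop n₀ = pref ξ (w.drop n₀).length := by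
        rw [← hξ, List.take_append_drop]
        exact hnf
      refine ⟨app (w.take n₀) ξ, fun k => ?_, ?_⟩
      · rcases Nat.le_total k n₀ with hk | hk
        · have h1 : pref (app (w.take n₀) ξ) k ++ (w.take n₀).drop k = w.take n₀ := by
            have h2 : pref (app (w.take n₀) ξ) k = (w.take n₀).take k := by
              rw [← pref_take _ hk, pref_app' hv]
            rw [h2, List.take_append_drop]
          rw [← h1] at hnf'
          exact hnf'.of_append
        · obtain ⟨l, rfl⟩ := Nat.exists_eq_add_of_le hk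
          rw [pref_app_add' hv, hξ, length_pref]
      · have h1 : w.length = (w.take n₀).length + (w.drop n₀).length := by
          rw [← List.length_append, List.take_append_drop]
        rw [h1, pref_app_add, ← hw2, List.take_append_drop]
    · left
      exact hD _ (not_NF hnf)

/-- A section of depth `D` changes at most `D` letters. -/
theorem shift_of_dep {g : TA X} {y : ℕ → X} {n D : ℕ} (h : sec g (pref y n) ∈ Dep X D) :
    shift (n + D) (ray g y) = shift (n + D) y := by
  rw [shift_ray, pref_add, sec_append, Dep_sec h (by rw [length_pref]), ray_one]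

end Pool.Agent.Lib.Helper67.BN
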